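import Pool.Agent.H527Z.Per.Main

set_option autoImplicit false

namespace Pool.Agent.Results.MP_618444_gt.RepetitivePerron

/-- Every complex Perron number `c` with `‖c‖ > 1` is the expansion constant of a self-similar
tiling in the sense of Thurston and Kenyon: finitely many tile types, tiles of one type are
translates and their expansions subdivide in the same way, and the tiling is repetitive. -/
theorem result :
    ∀ c : ℂ, IsIntegral ℤ c → 1 < ‖c‖ →
      (∀ μ : ℂ, Polynomial.aeval μ (minpoly ℚ c) = 0 → μ ≠ c →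
        μ ≠ (starRingEnd ℂ) c → ‖μ‖ < ‖c‖) →
      ∃ (T : Set (Set ℂ)) (n : ℕ) (ty : Set ℂ → Fin n),
        (∀ t ∈ T, IsCompact t ∧ IsConnected t ∧ closure (interior t) = t) ∧
        ⋃₀ T = Set.univ ∧
        (∀ t ∈ T, ∀ s ∈ T, t ≠ s → Disjoint (interior t) (interior s)) ∧
        (∀ t ∈ T, ∃ S ⊆ T, (fun w => c * w) '' t = ⋃₀ S) ∧
        (∀ t ∈ T, ∀ t' ∈ T, ty t = ty t' → ∃ z : ℂ, t' = (fun w => w + z) '' t ∧
          ∀ s ∈ T, s ⊆ (fun w => c * w) '' t →
            (fun w => w + c * z) '' s ∈ T ∧ ty ((fun w => w + c * z) '' s) = ty s) ∧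
        (∀ R : ℝ, ∃ R' : ℝ, ∀ x y : ℂ, ∃ z : ℂ, ‖x + z - y‖ ≤ R' ∧
          ∀ s ∈ T, ¬ Disjoint s (Metric.closedBall x R) →
            (fun w => w + z) '' s ∈ T ∧ ty ((fun w => w + z) '' s) = ty s) :=
  Pool.Agent.H527Z.Per.main

end Pool.Agent.Results.MP_618444_gt.RepetitivePerron
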